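import Pool.Agent.Helper15.AB.GoalsT

/-! # Project AB (MP_1ef41b_an), module TR, packet FND: `Box` is a fundamental domain -/

open MeasureTheory Set Filter Topology
open scoped ContDiff

noncomputable section

namespace Pool.Agent.Helper19.AB

open Pool.Agent.Helper24.AB Pool.Agent.Helper15.AB

lemma gE_three (P : V4) : (gE P) 3 = P 3 + 2 * Real.pi * Complex.I := by
  simp [gE]

lemma gE_symm_three (P : V4) : (gE.symm P) 3 = P 3 - 2 * Real.pi * Complex.I := by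
  simp [gE]

lemma gE_zpow_three (j : ℤ) (P : V4) :
    ((gE ^ j) P) 3 = P 3 + 2 * Real.pi * Complex.I * (j : ℂ) := by
  induction j using Int.induction_on generalizing P with
  | zero => simp
  | succ n ih =>
    rw [zpow_add_one, Equiv.Perm.mul_apply, ih, gE_three]
    push_cast
    ring
  | pred n ih =>
    rw [zpow_sub_one, Equiv.Perm.mul_apply, ih, Equiv.Perm.inv_def, gE_symm_three]
    push_cast
    ring

lemma tE_im (k : Fin 3 → ℤ) (P : V4) :
    ((tE k P) 0).im = (P 0).im + 2 * Real.pi * k 0 ∧ ((tE k P) 1).im = (P 1).im + 2 * Real.pi * k 1 ∧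
    ((tE k P) 2).im = (P 2).im + 2 * Real.pi * k 2 ∧ (tE k P) 3 = P 3 := by
  refine ⟨?_, ?_, ?_, ?_⟩ <;> simp [tE]

lemma gE_zpow_im (j : ℤ) (P : V4) :
    (((gE ^ j) P) 3).im = (P 3).im + 2 * Real.pi * j := by
  rw [gE_zpow_three]
  simp

lemma exists_shift (x : ℝ) : ∃ n : ℤ, 0 ≤ x + 2 * Real.pi * n ∧ x + 2 * Real.pi * n < 2 * Real.pi := by
  have hpi : (0 : ℝ) < 2 * Real.pi := by positivity
  refine ⟨-⌊x / (2 * Real.pi)⌋, ?_, ?_⟩
  · have h := Int.floor_le (x / (2 * Real.pi))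
    rw [le_div_iff₀ hpi] at h
    push_cast
    linarith
  · have h := Int.lt_floor_add_one (x / (2 * Real.pi))
    rw [div_lt_iff₀ hpi] at h
    push_cast
    linarith

lemma shift_zero {x : ℝ} {n : ℤ} (h1 : 0 ≤ x) (h2 : x < 2 * Real.pi)
    (h3 : 0 ≤ x + 2 * Real.pi * n) (h4 : x + 2 * Real.pi * n < 2 * Real.pi) : n = 0 := by
  have hpi : (0 : ℝ) < 2 * Real.pi := by positivity
  have h5 : (n : ℝ) < 1 := by
    by_contra hc
    push Not at hc
    have : 2 * Real.pi * 1 ≤ 2 * Real.pi * n := by gcongr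
    linarith
  have h6 : (-1 : ℝ) < n := by
    by_contra hc
    push Not at hc
    have : 2 * Real.pi * n ≤ 2 * Real.pi * (-1) := by gcongr
    linarith
  have h7 : n < 1 := by exact_mod_cast h5
  have h8 : -1 < n := by exact_mod_cast h6
  omega

theorem fnd : S_FND := by
  constructor
  · intro P
    obtain ⟨j, hj1, hj2⟩ := exists_shift (P 3).im
    obtain ⟨k0, h01, h02⟩ := exists_shift (((gE ^ j) P) 0).im
    obtain ⟨k1, h11, h12⟩ := exists_shift (((gE ^ j) P) 1).im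
    obtain ⟨k2, h21, h22⟩ := exists_shift (((gE ^ j) P) 2).im
    obtain ⟨e0, e1, e2, e3⟩ := tE_im ![k0, k1, k2] ((gE ^ j) P)
    refine ⟨tE ![k0, k1, k2] ((gE ^ j) P), ?_, j, ![k0, k1, k2], rfl⟩
    intro i
    fin_cases i
    · change 0 ≤ ((tE ![k0, k1, k2] ((gE ^ j) P)) 0).im ∧
        ((tE ![k0, k1, k2] ((gE ^ j) P)) 0).im < 2 * Real.pi
      rw [e0]
      exact ⟨h01, h02⟩
    · change 0 ≤ ((tE ![k0, k1, k2] ((gE ^ j) P)) 1).im ∧
        ((tE ![k0, k1, k2] ((gE ^ j) P)) 1).im < 2 * Real.pi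
      rw [e1]
      exact ⟨h11, h12⟩
    · change 0 ≤ ((tE ![k0, k1, k2] ((gE ^ j) P)) 2).im ∧
        ((tE ![k0, k1, k2] ((gE ^ j) P)) 2).im < 2 * Real.pi
      rw [e2]
      exact ⟨h21, h22⟩
    · change 0 ≤ ((tE ![k0, k1, k2] ((gE ^ j) P)) 3).im ∧
        ((tE ![k0, k1, k2] ((gE ^ j) P)) 3).im < 2 * Real.pi
      rw [e3, gE_zpow_im]
      exact ⟨hj1, hj2⟩
  · rintro P hP P' hP' ⟨j, k, rfl⟩
    obtain ⟨e0, e1, e2, e3⟩ := tE_im k ((gE ^ j) P)
    have h3 := hP' 3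
    rw [e3, gE_zpow_im] at h3
    have hj : j = 0 := shift_zero (hP 3).1 (hP 3).2 h3.1 h3.2
    subst hj
    simp only [zpow_zero, Equiv.Perm.coe_one, id_eq] at e0 e1 e2 e3 hP' ⊢
    have h0 := hP' 0
    have h1 := hP' 1
    have h2 := hP' 2
    rw [e0] at h0
    rw [e1] at h1
    rw [e2] at h2
    have k0 : k 0 = 0 := shift_zero (hP 0).1 (hP 0).2 h0.1 h0.2
    have k1 : k 1 = 0 := shift_zero (hP 1).1 (hP 1).2 h1.1 h1.2
    have k2 : k 2 = 0 := shift_zero (hP 2).1 (hP 2).2 h2.1 h2.2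
    funext i
    fin_cases i <;> simp [tE, k0, k1, k2]

end Pool.Agent.Helper19.AB
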